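import Pool.Agent.H23.GZ.Targets5

/-!
The combinations of dilates as Fourier transforms (row EKD of the board gz1).
-/

namespace Pool.Agent.H57.GZ

open MeasureTheory Pool.Agent.H34.GM Pool.Agent.H34.GZ

set_option linter.unusedVariables false

lemma tw_one_le {m : ℕ} (n : Fin m → ℕ) : 1 ≤ tw n := by
  unfold tw
  exact Real.one_le_rpow (by norm_num) (by positivity)

lemma tw_pos {m : ℕ} (n : Fin m → ℕ) : 0 < tw n := lt_of_lt_of_le one_pos (tw_one_le n)

/-- the coefficients -/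
noncomputable def aK {m : ℕ} (K : Fin m → ℕ) (c : Fin m → ℂ) (n : Fin m → ℕ) : ℂ :=
  cK K c n * ((tw n ^ (m ^ 2))⁻¹ : ℝ)

lemma eK_eq {m : ℕ} (K : Fin m → ℕ) (c : Fin m → ℂ) (f : Mat m → ℂ) (z : Mat m) :
    eK K c f z = ∑ n ∈ nK K, aK K c n * f ((tw n)⁻¹ • z) := rfl

lemma sz_smul {m : ℕ} (t : ℝ) (ht : 0 < t) (z : Mat m) : sz (t • z) = t * sz z := by
  unfold sz
  have h : ((fun i j => (t • z) i j) : V m) = t • ((fun i j => z i j) : V m) := by
    funext i j
    simp [Matrix.smul_apply]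
  rw [h, norm_smul, Real.norm_eq_abs, abs_of_pos ht]

lemma sz_mt {m : ℕ} (z : V m) : sz (mt z) = ‖z‖ := rfl

/-- the support of the combination -/
lemma eK_supp {m : ℕ} (K : Fin m → ℕ) (c : Fin m → ℂ) (Φ : Mat m → ℂ) (c0 : ℝ) (hc0 : 0 < c0)
    (h : ∀ z, Φ z ≠ 0 → sz z ≤ c0 ∧ c0⁻¹ ≤ |z.det|) (z : Mat m) (hz : eK K c Φ z ≠ 0) :
    sz z ≤ c0 * (∑ n ∈ nK K, tw n + 1) ∧ (c0 * (∑ n ∈ nK K, tw n + 1))⁻¹ ≤ |z.det| := by
  rw [eK_eq] at hz
  obtain ⟨n, hn, hne⟩ := Finset.exists_ne_zero_of_sum_ne_zero hz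
  have hΦ : Φ ((tw n)⁻¹ • z) ≠ 0 := right_ne_zero_of_mul hne
  obtain ⟨h1, h2⟩ := h _ hΦ
  have ht := tw_pos n
  have ht1 := tw_one_le n
  have hsum : tw n ≤ ∑ n ∈ nK K, tw n :=
    Finset.single_le_sum (fun n _ => (tw_pos n).le) hn
  have hT1 : 1 ≤ ∑ n ∈ nK K, tw n + 1 := by linarith
  rw [sz_smul _ (inv_pos.mpr ht)] at h1
  constructor
  · rw [inv_mul_le_iff₀ ht] at h1
    calc sz z ≤ tw n * c0 := h1
      _ = c0 * tw n := mul_comm _ _
      _ ≤ c0 * (∑ n ∈ nK K, tw n + 1) := mul_le_mul_of_nonneg_left (by linarith) hc0.le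
  · rw [Matrix.det_smul, Fintype.card_fin, abs_mul, abs_pow, abs_of_pos (inv_pos.mpr ht)] at h2
    have h3 : (tw n)⁻¹ ^ m ≤ 1 := pow_le_one₀ (inv_pos.mpr ht).le (inv_le_one_of_one_le₀ ht1)
    calc (c0 * (∑ n ∈ nK K, tw n + 1))⁻¹ ≤ c0⁻¹ :=
          inv_anti₀ hc0 (le_mul_of_one_le_right hc0.le hT1)
      _ ≤ (tw n)⁻¹ ^ m * |z.det| := h2
      _ ≤ |z.det| := mul_le_of_le_one_left (abs_nonneg _) h3

lemma eK_tst {m : ℕ} (K : Fin m → ℕ) (c : Fin m → ℂ) (Φ : Mat m → ℂ) (h : TstS m Φ) :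
    TstS m (eK K c Φ) := by
  obtain ⟨c0, hc0, hsup⟩ := h.supp
  have hs := eK_supp K c Φ c0 hc0 hsup
  have hT : 0 < ∑ n ∈ nK K, tw n + 1 :=
    add_pos_of_nonneg_of_pos (Finset.sum_nonneg fun n _ => (tw_pos n).le) one_pos
  refine ⟨⟨?_, ⟨c0 * (∑ n ∈ nK K, tw n + 1), mul_pos hc0 hT, hs⟩, ?_, ?_⟩, ?_, ?_⟩
  · have : eK K c Φ = fun z => ∑ n ∈ nK K, aK K c n * Φ ((tw n)⁻¹ • z) := rfl
    rw [this]
    refine continuous_finsetSum _ fun n _ => continuous_const.mul ?_
    exact h.cont.comp (continuous_const_smul _)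
  · intro u hu z
    rw [eK_eq, eK_eq]
    refine Finset.sum_congr rfl fun n _ => ?_
    rw [← Matrix.mul_smul, h.left u hu]
  · intro u hu z
    rw [eK_eq, eK_eq]
    refine Finset.sum_congr rfl fun n _ => ?_
    rw [← Matrix.smul_mul, h.right u hu]
  · have : (fun z : V m => eK K c Φ (mt z)) =
        fun z : V m => ∑ n ∈ nK K, aK K c n * (fun z : V m => Φ (mt z)) ((tw n)⁻¹ • z) := rfl
    rw [this]
    refine ContDiff.sum fun n _ => contDiff_const.mul ?_
    exact h.smooth.comp (contDiff_const_smul _)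
  · refine HasCompactSupport.intro (isCompact_closedBall (0 : V m)
      (c0 * (∑ n ∈ nK K, tw n + 1))) fun z hz => ?_
    by_contra hne
    apply hz
    rw [mem_closedBall_zero_iff, ← sz_mt]
    exact (hs _ hne).1

/-! ### the Fourier transform -/

lemma cont_ee : Continuous ee := by
  unfold ee
  fun_prop

lemma int_one {m : ℕ} (Φ : Mat m → ℂ) (h : TstS m Φ) (t : ℝ) (ht : 0 < t) (w : Mat m) :
    Integrable (fun z : V m => Φ (t • mt z) * ee (-(w * mt z).trace)) ∧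
    ∫ z : V m, Φ (t • mt z) * ee (-(w * mt z).trace) =
      (((t ^ (m ^ 2))⁻¹ : ℝ) : ℂ) * ft Φ (t⁻¹ • w) := by
  have hc1 : Continuous (fun z : V m => ee (-(w * mt z).trace)) := by
    refine cont_ee.comp (Continuous.neg ?_)
    refine Continuous.matrix_trace (Continuous.matrix_mul continuous_const ?_)
    exact continuous_id
  have hΦc : Continuous (fun z : V m => Φ (mt z)) := h.smooth.continuous
  constructor
  · refine Continuous.integrable_of_hasCompactSupport ?_ ?_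
    · refine Continuous.mul ?_ hc1
      exact hΦc.comp (continuous_const_smul t)
    · refine HasCompactSupport.mul_right ?_
      obtain ⟨c0, hc0, hsup⟩ := h.supp
      refine HasCompactSupport.intro (isCompact_closedBall (0 : V m) (c0 / t)) fun z hz => ?_
      by_contra hne
      apply hz
      rw [mem_closedBall_zero_iff, ← sz_mt, le_div_iff₀ ht]
      have h1 := (hsup _ hne).1
      rw [sz_smul t ht] at h1
      linarith
  · have h1 := Measure.integral_comp_smul (volume : Measure (V m))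
      (fun z : V m => Φ (mt z) * ee (-((t⁻¹ • w) * mt z).trace)) t
    have h2 : (fun z : V m => (fun z : V m => Φ (mt z) * ee (-((t⁻¹ • w) * mt z).trace)) (t • z)) =
        fun z : V m => Φ (t • mt z) * ee (-(w * mt z).trace) := by
      funext z
      have e1 : (mt (t • z) : Mat m) = t • mt z := rfl
      show Φ (mt (t • z)) * ee (-((t⁻¹ • w) * mt (t • z)).trace) = _
      rw [e1, Matrix.smul_mul, Matrix.mul_smul, smul_smul, inv_mul_cancel₀ ht.ne', one_smul]
    rw [h2] at h1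
    rw [h1]
    have h3 : Module.finrank ℝ (V m) = m ^ 2 := by
      rw [Module.finrank_pi_fintype]
      simp [sq]
    rw [h3, abs_of_pos (by positivity), Complex.real_smul]
    rfl

lemma cf_eK {m : ℕ} (K : Fin m → ℕ) (c : Fin m → ℂ) (Φ : Mat m → ℂ) (h : TstS m Φ) (w : Mat m) :
    cf (eK K c Φ) w = dK K (fun j => (starRingEnd ℂ) (c j)) (cf Φ) w := by
  have h1 : ft (eK K c Φ) w = ∑ n ∈ nK K, cK K c n * ft Φ (tw n • w) := by
    unfold ft
    have e1 : (fun z : V m => eK K c Φ (mt z) * ee (-(w * mt z).trace)) =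
        fun z : V m => ∑ n ∈ nK K, aK K c n *
          (Φ ((tw n)⁻¹ • mt z) * ee (-(w * mt z).trace)) := by
      funext z
      rw [eK_eq, Finset.sum_mul]
      exact Finset.sum_congr rfl fun n _ => mul_assoc _ _ _
    rw [e1, integral_finsetSum]
    · refine Finset.sum_congr rfl fun n _ => ?_
      have ht := tw_pos n
      rw [integral_const_mul, (int_one Φ h _ (inv_pos.mpr ht) w).2, inv_inv]
      unfold aK ft
      rw [inv_pow, inv_inv, ← mul_assoc, mul_assoc (cK K c n), ← Complex.ofReal_mul,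
        inv_mul_cancel₀ (pow_pos ht _).ne', Complex.ofReal_one, mul_one]
    · intro n _
      exact (int_one Φ h _ (inv_pos.mpr (tw_pos n)) w).1.const_mul _
  unfold cf dK
  rw [h1, map_sum]
  refine Finset.sum_congr rfl fun n _ => ?_
  rw [map_mul]
  congr 1
  unfold cK
  rw [map_prod]
  refine Finset.prod_congr rfl fun j _ => ?_
  rw [map_mul, Complex.conj_ofReal, map_pow]

/-! ### the Euler operator -/

lemma diff_one {m : ℕ} (Φ : Mat m → ℂ) (h : TstS m Φ) (z : Mat m) :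
    DifferentiableAt ℝ (fun s : ℝ => Φ (s • z)) 1 := by
  have h1 : (fun s : ℝ => Φ (s • z)) = fun s : ℝ =>
      (fun z : V m => Φ (mt z)) (s • ((fun i j => z i j) : V m)) := rfl
  rw [h1]
  have h2 : Differentiable ℝ (fun z : V m => Φ (mt z)) :=
    h.smooth.differentiable (by simp)
  exact (h2 _).comp _ (differentiableAt_id.smul_const _)

lemma eu_eK {m : ℕ} (K : Fin m → ℕ) (c : Fin m → ℂ) (Φ : Mat m → ℂ) (h : TstS m Φ) :
    eu (eK K c Φ) = eK K c (eu Φ) := by
  funext z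
  rw [eK_eq]
  unfold eu
  have h1 : (fun s : ℝ => eK K c Φ (s • z)) = fun s : ℝ =>
      ∑ n ∈ nK K, aK K c n * Φ (s • ((tw n)⁻¹ • z)) := by
    funext s
    rw [eK_eq]
    refine Finset.sum_congr rfl fun n _ => ?_
    rw [smul_comm]
  rw [h1]
  have h2 := HasDerivAt.fun_sum (u := nK K)
    (A := fun n (s : ℝ) => aK K c n * Φ (s • ((tw n)⁻¹ • z)))
    (A' := fun n => aK K c n * deriv (fun s : ℝ => Φ (s • ((tw n)⁻¹ • z))) 1) (x := (1 : ℝ))
    (fun n _ => (diff_one Φ h ((tw n)⁻¹ • z)).hasDerivAt.const_mul _)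
  exact h2.deriv

theorem pf_EKD : T_EKD := by
  intro m hm K c Φ h
  refine ⟨eK_tst K c Φ h, cf_eK K c Φ h, eu_eK K c Φ h, ?_⟩
  funext z
  unfold eu2
  rw [eu_eK K c Φ h, eK_eq, eK_eq, eK_eq, Finset.mul_sum, ← Finset.sum_add_distrib,
    ← Finset.sum_neg_distrib]
  refine Finset.sum_congr rfl fun n _ => ?_
  ring

end Pool.Agent.H57.GZ
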